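import Mathlib

/-!
If the poset of retractions of a nonempty lattice `L` is a lattice, then `L` is complete. Hence
every incomplete lattice is a counterexample to Question 1.
-/

universe u

namespace Pool.Agent.Results.MP_31821e_co.RetrLatticeForcesComplete

/-- The poset `Retr(L)` of retractions of a lattice `L`: the order-preserving maps `r : L → L` with
`r (r x) = r x` for all `x`. As a subtype of `L → L` it carries the pointwise order:
`r ≤ s` iff `r x ≤ s x` for all `x`. -/
abbrev Retr (L : Type u) [Lattice L] : Type u :=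
  {r : L → L // Monotone r ∧ ∀ x, r (r x) = r x}

/-- `Retr(L)` is a lattice: every two retractions have a least upper bound and a greatest lower
bound inside the poset `Retr(L)`. -/
def RetrIsLattice (L : Type u) [Lattice L] : Prop :=
  ∀ r s : Retr L, (∃ t : Retr L, IsLUB {r, s} t) ∧ (∃ t : Retr L, IsGLB {r, s} t)

/-- The lattice `L` is complete: every subset (the empty one included) has a least upper bound and a
greatest lower bound in `L`. -/
def IsCompleteLat (L : Type u) [Lattice L] : Prop :=
  ∀ A : Set L, (∃ a : L, IsLUB A a) ∧ (∃ a : L, IsGLB A a)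

/-- A linear order has a cofinal well-founded subset. -/
theorem exists_wf_cofinal (α : Type u) [LinearOrder α] :
    ∃ S : Set α, IsCofinal S ∧ WellFoundedLT S := by
  refine ⟨{a | ∀ b, WellOrderingRel b a → b < a}, isCofinal_setOfPred_imp_lt _, ?_⟩
  refine ⟨Subrelation.wf (r := fun a b => WellOrderingRel a.1 b.1) ?_
    (InvImage.wf Subtype.val (IsWellFounded.wf (r := (WellOrderingRel : α → α → Prop))))⟩
  intro a b hab
  rcases trichotomous_of (WellOrderingRel : α → α → Prop) a.1 b.1 with h | h | h
  · exact h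
  · exact absurd (Subtype.ext h) (ne_of_lt hab)
  · exact absurd (a.2 _ h) (not_lt.2 (le_of_lt hab))

/-- A well-founded linear order without maximum splits in two cofinal parts. -/
theorem exists_parity (ι : Type u) [LinearOrder ι] [WellFoundedLT ι] [NoMaxOrder ι] :
    ∃ p : ι → Bool, ∀ (a : ι) (q : Bool), ∃ b, a ≤ b ∧ p b = q := by
  classical
  let : SuccOrder ι := SuccOrder.ofLinearWellFoundedLT ι
  let p : ι → Bool := fun a =>
    SuccOrder.prelimitRecOn (motive := fun _ => Bool) a (fun _ _ ih => !ih) (fun _ _ _ => true)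
  have hp : ∀ a, p (Order.succ a) = !(p a) := fun a => by
    simp only [p]
    rw [SuccOrder.prelimitRecOn_succ]
  refine ⟨p, fun a q => ?_⟩
  by_cases h : p a = q
  · exact ⟨a, le_rfl, h⟩
  · refine ⟨Order.succ a, Order.le_succ a, ?_⟩
    rw [hp]
    revert h
    cases p a <;> cases q <;> simp

/-- Main step: if a strictly monotone family indexed by a well-ordered set without maximum has no
least upper bound, then some two retractions have no least upper bound. -/
theorem isLUB_range_of_retr {L : Type u} [Lattice L] {ι : Type u} [LinearOrder ι]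
    [WellFoundedLT ι] [NoMaxOrder ι] [Nonempty ι] (y : ι → L) (hy : StrictMono y)
    (hL : ∀ r s : Retr L, ∃ t : Retr L, IsLUB {r, s} t) : ∃ a, IsLUB (Set.range y) a := by
  classical
  by_contra hno
  obtain ⟨p, hp⟩ := exists_parity ι
  -- the index to which an element outside the set of upper bounds is rounded up
  have hm : ∀ (q : Bool) (z : L), ∃ a : ι, z ∉ upperBounds (Set.range y) →
      (p a = q ∧ (∀ b, y b ≤ z → b ≤ a) ∧ ∀ a', p a' = q → (∀ b, y b ≤ z → b ≤ a') → a ≤ a') := by
    intro q z
    by_cases hz : z ∈ upperBounds (Set.range y)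
    · exact ⟨Classical.arbitrary ι, fun h => absurd hz h⟩
    · have hne : ∃ a, p a = q ∧ ∀ b, y b ≤ z → b ≤ a := by
        have : ∃ c, ¬ y c ≤ z := by
          by_contra hcon
          push Not at hcon
          exact hz (by rintro _ ⟨c, rfl⟩; exact hcon c)
        obtain ⟨c, hc⟩ := this
        obtain ⟨a, hca, hpa⟩ := hp c q
        refine ⟨a, hpa, fun b hb => ?_⟩
        by_contra hba
        exact hc ((hy.monotone (hca.trans (le_of_not_ge hba))).trans hb)
      refine ⟨wellFounded_lt.min {a | p a = q ∧ ∀ b, y b ≤ z → b ≤ a} hne, fun _ => ?_⟩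
      have hmem := wellFounded_lt.min_mem {a | p a = q ∧ ∀ b, y b ≤ z → b ≤ a} hne
      exact ⟨hmem.1, hmem.2, fun a' h1 h2 => by
        have hmem' : a' ∈ {a | p a = q ∧ ∀ b, y b ≤ z → b ≤ a} := ⟨h1, h2⟩
        exact not_lt.1 (wellFounded_lt.not_lt_min _ hmem')⟩
  choose m hm using hm
  have hyU : ∀ a, y a ∉ upperBounds (Set.range y) := fun a ha =>
    hno ⟨y a, ha, fun b hb => hb ⟨a, rfl⟩⟩
  let r : Bool → L → L := fun q z => if z ∈ upperBounds (Set.range y) then z else y (m q z)
  have r_in : ∀ q z, z ∈ upperBounds (Set.range y) → r q z = z := fun q z hz => if_pos hz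
  have r_out : ∀ q z, z ∉ upperBounds (Set.range y) → r q z = y (m q z) := fun q z hz => if_neg hz
  have r_mono : ∀ q, Monotone (r q) := by
    intro q z z' hzz'
    by_cases hz' : z' ∈ upperBounds (Set.range y)
    · rw [r_in q z' hz']
      by_cases hz : z ∈ upperBounds (Set.range y)
      · rw [r_in q z hz]; exact hzz'
      · rw [r_out q z hz]; exact hz' ⟨_, rfl⟩
    · have hz : z ∉ upperBounds (Set.range y) := fun h =>
        hz' (fun w hw => (h hw).trans hzz')
      rw [r_out q z hz, r_out q z' hz']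
      obtain ⟨h1, h2, -⟩ := hm q z' hz'
      obtain ⟨-, -, h3⟩ := hm q z hz
      exact hy.monotone (h3 _ h1 (fun b hb => h2 b (hb.trans hzz')))
  have r_idem : ∀ q z, r q (r q z) = r q z := by
    intro q z
    by_cases hz : z ∈ upperBounds (Set.range y)
    · rw [r_in q z hz, r_in q z hz]
    · rw [r_out q z hz, r_out q _ (hyU _)]
      congr 1
      obtain ⟨h1, h2, h3⟩ := hm q z hz
      obtain ⟨k1, k2, k3⟩ := hm q (y (m q z)) (hyU _)
      refine le_antisymm (k3 _ h1 fun b hb => hy.le_iff_le.1 hb) (k2 _ le_rfl)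
  obtain ⟨t, ht⟩ := hL ⟨r true, r_mono true, r_idem true⟩ ⟨r false, r_mono false, r_idem false⟩
  have htr : ∀ q z, r q z ≤ t.1 z := by
    intro q z
    cases q
    · exact ht.1 (Set.mem_insert_of_mem _ rfl) z
    · exact ht.1 (Set.mem_insert _ _) z
  -- every value of an upper bound is an upper bound of the chain
  have htU : ∀ z, t.1 z ∈ upperBounds (Set.range y) := by
    intro z
    by_contra hw
    have hfix : t.1 (t.1 z) = t.1 z := t.2.2 z
    have key : ∀ q, y (m q (t.1 z)) ≤ t.1 z := by
      intro q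
      have := htr q (t.1 z)
      rwa [hfix, r_out q _ hw] at this
    obtain ⟨h1, h2, -⟩ := hm true (t.1 z) hw
    obtain ⟨k1, k2, -⟩ := hm false (t.1 z) hw
    have heq : m true (t.1 z) = m false (t.1 z) := le_antisymm (k2 _ (key true)) (h2 _ (key false))
    rw [heq, k1] at h1
    exact Bool.false_ne_true h1
  -- the least upper bound would give a least upper bound of the chain
  let z₀ : L := y (Classical.arbitrary ι)
  apply hno
  refine ⟨t.1 z₀, htU z₀, fun u hu => ?_⟩
  let tu : Retr L := ⟨fun z => z ⊔ u, fun a b hab => sup_le_sup_right hab u, fun z => by simp⟩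
  have hle : t ≤ tu := by
    apply ht.2
    intro s hs
    have hq : ∀ q z, r q z ≤ z ⊔ u := by
      intro q z
      by_cases hz : z ∈ upperBounds (Set.range y)
      · rw [r_in q z hz]; exact le_sup_left
      · rw [r_out q z hz]; exact (hu ⟨_, rfl⟩).trans le_sup_right
    rcases hs with hs | hs
    · rw [hs]; exact fun z => hq true z
    · rw [Set.mem_singleton_iff.1 hs]; exact fun z => hq false z
  have := hle z₀
  exact this.trans (sup_le (hu ⟨_, rfl⟩) le_rfl)

/-- If every two retractions have a least upper bound, then every nonempty chain has one. -/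
theorem isLUB_chain_of_retr {L : Type u} [Lattice L]
    (hL : ∀ r s : Retr L, ∃ t : Retr L, IsLUB {r, s} t) (C : Set L) (hC : IsChain (· ≤ ·) C)
    (hne : C.Nonempty) : ∃ a, IsLUB C a := by
  classical
  by_cases hmax : ∃ c ∈ C, ∀ d ∈ C, d ≤ c
  · obtain ⟨c, hc, hcd⟩ := hmax
    exact ⟨c, hcd, fun b hb => hb hc⟩
  · let : LinearOrder C := { (inferInstance : PartialOrder C) with
      le_total := fun a b => hC.total a.2 b.2
      toDecidableLE := Classical.decRel _ }
    obtain ⟨S, hScof, hSwf⟩ := exists_wf_cofinal C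
    have hnomax : ∀ a : C, ∃ b : C, a < b := by
      intro a
      by_contra hcon
      push Not at hcon
      exact hmax ⟨a, a.2, fun d hd => hcon ⟨d, hd⟩⟩
    have : NoMaxOrder S := ⟨fun a => by
      obtain ⟨b, hb⟩ := hnomax a.1
      obtain ⟨c, hcS, hbc⟩ := hScof b
      exact ⟨⟨c, hcS⟩, show a.1 < c from lt_of_lt_of_le hb hbc⟩⟩
    have : Nonempty S := by
      obtain ⟨c, hc⟩ := hne
      obtain ⟨d, hdS, -⟩ := hScof ⟨c, hc⟩
      exact ⟨⟨d, hdS⟩⟩
    obtain ⟨a, ha⟩ := isLUB_range_of_retr (fun s : S => (s.1 : L)) (fun a b hab => hab) hL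
    refine ⟨a, fun c hc => ?_, fun b hb => ha.2 ?_⟩
    · obtain ⟨d, hdS, hcd⟩ := hScof ⟨c, hc⟩
      exact le_trans hcd (ha.1 ⟨⟨d, hdS⟩, rfl⟩)
    · rintro _ ⟨s, rfl⟩
      exact hb s.1.2

/-- If every two retractions have a least upper bound, then every nonempty set has one. -/
theorem isLUB_of_retr {L : Type u} [Lattice L]
    (hL : ∀ r s : Retr L, ∃ t : Retr L, IsLUB {r, s} t) (A : Set L) (hA : A.Nonempty) :
    ∃ a, IsLUB A a := by
  obtain ⟨a₀, ha₀⟩ := hA
  have hzorn := zorn_le_nonempty₀ (lowerBounds (upperBounds A)) (fun C hCD hC c hc => by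
    obtain ⟨b, hb⟩ := isLUB_chain_of_retr hL C hC ⟨c, hc⟩
    exact ⟨b, fun u hu => hb.2 fun d hd => hCD hd hu, hb.1⟩) a₀ (fun u hu => hu ha₀)
  obtain ⟨m, -, hm⟩ := hzorn
  refine ⟨m, fun a ha => ?_, fun u hu => hm.prop hu⟩
  have h1 : a ⊔ m ∈ lowerBounds (upperBounds A) := fun u hu => sup_le (hu ha) (hm.prop hu)
  have h2 : a ⊔ m ≤ m := hm.le_of_ge h1 le_sup_right
  exact le_sup_left.trans h2

/-- Dual statement. -/
theorem isGLB_of_retr {L : Type u} [Lattice L]
    (hL : ∀ r s : Retr L, ∃ t : Retr L, IsGLB {r, s} t) (A : Set L) (hA : A.Nonempty) :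
    ∃ a, IsGLB A a := by
  have hL' : ∀ r s : Retr Lᵒᵈ, ∃ t : Retr Lᵒᵈ, IsLUB {r, s} t := by
    intro r s
    let r' : Retr L := ⟨fun x => OrderDual.ofDual (r.1 (OrderDual.toDual x)),
      fun a b hab => r.2.1 (show OrderDual.toDual b ≤ OrderDual.toDual a from hab),
      fun x => r.2.2 (OrderDual.toDual x)⟩
    let s' : Retr L := ⟨fun x => OrderDual.ofDual (s.1 (OrderDual.toDual x)),
      fun a b hab => s.2.1 (show OrderDual.toDual b ≤ OrderDual.toDual a from hab),
      fun x => s.2.2 (OrderDual.toDual x)⟩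
    obtain ⟨t, ht⟩ := hL r' s'
    refine ⟨⟨fun x => OrderDual.toDual (t.1 (OrderDual.ofDual x)),
      fun a b hab => t.2.1 (show OrderDual.ofDual b ≤ OrderDual.ofDual a from hab),
      fun x => t.2.2 (OrderDual.ofDual x)⟩, ?_, ?_⟩
    · intro w hw
      rcases hw with hw | hw
      · subst hw
        exact fun x => ht.1 (Set.mem_insert _ _) (OrderDual.ofDual x)
      · rw [Set.mem_singleton_iff] at hw
        subst hw
        exact fun x => ht.1 (Set.mem_insert_of_mem _ rfl) (OrderDual.ofDual x)
    · intro w hw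
      let w' : Retr L := ⟨fun x => OrderDual.ofDual (w.1 (OrderDual.toDual x)),
        fun a b hab => w.2.1 (show OrderDual.toDual b ≤ OrderDual.toDual a from hab),
        fun x => w.2.2 (OrderDual.toDual x)⟩
      have : w' ≤ t := by
        apply ht.2
        intro v hv
        rcases hv with hv | hv
        · subst hv
          exact fun x => hw (Set.mem_insert _ _) (OrderDual.toDual x)
        · rw [Set.mem_singleton_iff] at hv
          subst hv
          exact fun x => hw (Set.mem_insert_of_mem _ rfl) (OrderDual.toDual x)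
      exact fun x => this (OrderDual.ofDual x)
  obtain ⟨a, ha⟩ := isLUB_of_retr (L := Lᵒᵈ) hL' (OrderDual.ofDual ⁻¹' A) hA
  exact ⟨OrderDual.ofDual a, fun x hx => ha.1 (show OrderDual.toDual x ∈ OrderDual.ofDual ⁻¹' A from hx),
    fun b hb => ha.2 (show OrderDual.toDual b ∈ upperBounds (OrderDual.ofDual ⁻¹' A) from
      fun x hx => hb hx)⟩

theorem complete_of_retr (L : Type u) [Lattice L] [Nonempty L] (hL : RetrIsLattice L) :
    IsCompleteLat L := by
  have h1 : ∀ A : Set L, A.Nonempty → ∃ a, IsLUB A a := isLUB_of_retr fun r s => (hL r s).1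
  have h2 : ∀ A : Set L, A.Nonempty → ∃ a, IsGLB A a := isGLB_of_retr fun r s => (hL r s).2
  intro A
  rcases A.eq_empty_or_nonempty with rfl | hA
  · constructor
    · obtain ⟨b, hb⟩ := h2 Set.univ Set.univ_nonempty
      exact ⟨b, fun x hx => absurd hx (Set.notMem_empty x), fun c _ => hb.1 (Set.mem_univ c)⟩
    · obtain ⟨b, hb⟩ := h1 Set.univ Set.univ_nonempty
      exact ⟨b, fun x hx => absurd hx (Set.notMem_empty x), fun c _ => hb.1 (Set.mem_univ c)⟩
  · exact ⟨h1 A hA, h2 A hA⟩

/-- Not every lattice `L` has a lattice of retractions (the answer to Question 1 is negative), and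
in fact a nonempty lattice `L` whose poset of retractions is a lattice must be complete. -/
theorem result :
    (∃ (L : Type u) (_ : Lattice L), ¬ RetrIsLattice L) ∧
    (∀ (L : Type u) [Lattice L] [Nonempty L], RetrIsLattice L → IsCompleteLat L) := by
  refine ⟨⟨ULift.{u} ℤ, inferInstance, fun h => ?_⟩, fun L _ _ h => complete_of_retr L h⟩
  obtain ⟨a, ha⟩ := (complete_of_retr _ h Set.univ).1
  have : (ULift.up (a.down + 1) : ULift.{u} ℤ) ≤ a := ha.1 (Set.mem_univ _)
  have h2 : a.down + 1 ≤ a.down := this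
  omega

end Pool.Agent.Results.MP_31821e_co.RetrLatticeForcesComplete
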